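import Pool.Agent.H8K1.CL.Alg

set_option autoImplicit false

/-!
# Poonen's strict form for the congruence lattices of finite semigroups

We prove Poonen's strengthening of the union-closed sets conjecture for every separating finite
union-closed family whose inclusion order is dual to the lattice of the congruences of a finite
semigroup: unless the family is a power set, some element lies in strictly more than half of its
members.

Proof. If the lattice `L` has at least two elements there are a join-irreducible `J` and
an `N` not above `J` such that `U = J ⊔ (U ⊓ N)` for all `U ≥ J`. So `U ↦ U ⊓ N` maps the elements above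
`J` injectively to elements not above `J`. If this map is onto the elements not above `J`, then `L` is
the product of the interval above `J` and a two-element chain; the interval above `J` is the congruence
lattice of the quotient by `J`, and one concludes by induction.

If the semigroup is not simple, let `C` be a maximal J-class and `I` its complement, an ideal;
`N` is the Rees congruence of `I` and `J` is a join-irreducible congruence that relates an element of
`C` to an element of `I`. If the semigroup is simple and has two minimal right ideals, `N` is the
partition into a minimal right ideal and its complement. In the other cases `N` is a maximal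
congruence that permutes with all congruences.
-/

namespace Pool.Agent.Results.MP_75f39d_co.CongruenceLattices

open Pool.Agent.R636.FL Pool.Agent.H8K1.CL

universe u v w

/-- Poonen's strict form holds for the separating finite union-closed families whose inclusion order
is dual to `L`. -/
def PoonenHolds (L : Type v) [PartialOrder L] : Prop :=
  ∀ (α : Type w) [DecidableEq α] (A : Finset (Finset α)),
    Nonempty ({X // X ∈ A} ≃o Lᵒᵈ) →
    (∀ X ∈ A, ∀ Y ∈ A, X ∪ Y ∈ A) →
    (∀ x ∈ A.sup id, ∀ y ∈ A.sup id, x ≠ y → ∃ S ∈ A, (x ∈ S ∧ y ∉ S) ∨ (y ∈ S ∧ x ∉ S)) →
    A ≠ (A.sup id).powerset →
    ∃ x ∈ A.sup id, A.card < 2 * (A.filter fun S => x ∈ S).card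

theorem of_good {L : Type v} [Lattice L] [OrderBot L] [Finite L] (h : Good L) :
    PoonenHolds.{v, w} L := by
  rintro α _ A ⟨e⟩ hA hsep hpow
  exact poonen_of_good A hA e h ⟨_, (e.symm (OrderDual.toDual ⊥)).2⟩ hsep hpow

/-- **Theorem.** Poonen's strict form holds for the families dual to the lattice of the congruences of
a finite semigroup. -/
theorem result (S : Type u) [Semigroup S] [Finite S] : PoonenHolds.{u, w} (Con S) :=
  of_good (good_semigroup S)

end Pool.Agent.Results.MP_75f39d_co.CongruenceLattices
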