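import Pool.Agent.Helper65.DS.Apply

set_option autoImplicit false

/-!
# Poonen's strict form for families dual to down-sets of lattices

Let `L` be a finite lattice in which every interval `[a, T]`, `a < T`, contains an `N < T` with
`J ⊔ (U ⊓ N) = U` for all `a ≤ J ≤ U ≤ T` with `J ≰ N` (for instance a left modular coatom of the
interval). We prove Poonen's strengthening of the union-closed sets conjecture for every separating
finite union-closed family whose inclusion order is dual to a nonempty down-set `D` of `L`. In other
words: for every nonempty up-set of a union-closed family whose order is dual to `L`. The case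
`D = L` is the usual one; for `D ≠ L` the family is not dual to a lattice of the same kind, and the
empty set is not a member.

Classes with this property: finite lower semimodular lattices; the lattice of the invariant equivalence
relations of a solvable group that acts on a finite set (in particular the partition lattices); the
interval above a subgroup of finite index in the subgroup lattice of a solvable group. This is proved
in `Pool/Agent/Helper65/DS/Apply` (`good_lowerSet`, `good_invariant`, `good_subgroups`).

Proof. Let `a` be the least element of `D ≠ {a}`, `T` the join of `D` and `N` as above. There is a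
minimal `J ∈ D` not below `N`; it is irreducible, and `U ↦ U ⊓ N` maps the elements of `D` above `J`
injectively to elements of `D` not above `J`. If this map is not onto, `J` lies below less than half of
`D`. If it is onto, `D` is the product of `{U ∈ D | J ≤ U}`, which is a down-set of `[J, ∞)`, and a
two-element chain, and one concludes by induction.
-/

namespace Pool.Agent.Results.MP_75f39d_co.DownSets

open Pool.Agent.Helper65.DS

universe u v w

/-- Poonen's strict form holds for the separating finite union-closed families whose inclusion order
is dual to `L`. -/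
def PoonenHolds (L : Type v) [PartialOrder L] : Prop :=
  ∀ (α : Type w) [DecidableEq α] (A : Finset (Finset α)),
    Nonempty ({X // X ∈ A} ≃o Lᵒᵈ) →
    (∀ X ∈ A, ∀ Y ∈ A, X ∪ Y ∈ A) →
    (∀ x ∈ A.sup id, ∀ y ∈ A.sup id, x ≠ y → ∃ S ∈ A, (x ∈ S ∧ y ∉ S) ∨ (y ∈ S ∧ x ∉ S)) →
    A ≠ (A.sup id).powerset →
    ∃ x ∈ A.sup id, A.card < 2 * (A.filter fun S => x ∈ S).card

theorem of_good {L : Type v} [PartialOrder L] [Finite L] [Nonempty L] (h : Good L) :
    PoonenHolds.{v, w} L := by
  rintro α _ A ⟨e⟩ hA hsep hpow
  obtain ⟨x⟩ := (inferInstance : Nonempty L)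
  exact poonen_of_good A hA e h hsep ⟨_, (e.symm (OrderDual.toDual x)).2⟩ hpow

/-- **Theorem.** Let `L` be a lattice in which for all `b < T` there is `N`, `b ≤ N < T`, with
`J ⊔ (U ⊓ N) = U` whenever `b ≤ J ≤ U ≤ T` and `J ≰ N`. Let `D` be a finite subset of `L` with least
element `a` which contains `V` whenever `a ≤ V ≤ U ∈ D`. Poonen's strict form holds for the families
dual to `D`. -/
theorem result (L : Type u) [Lattice L]
    (hL : ∀ b T : L, b < T → ∃ N, b ≤ N ∧ N < T ∧
      ∀ J U, b ≤ J → J ≤ U → U ≤ T → ¬ J ≤ N → J ⊔ (U ⊓ N) = U)
    (a : L) (D : Set L) (hfin : D.Finite) (ha : a ∈ D) (hle : ∀ U ∈ D, a ≤ U)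
    (hD : ∀ U ∈ D, ∀ V, a ≤ V → V ≤ U → V ∈ D) : PoonenHolds.{u, w} D := by
  have : Finite D := hfin
  have : Nonempty D := ⟨⟨a, ha⟩⟩
  exact of_good (good_of_hered hL D a ⟨ha, hle, hD⟩ hfin)

end Pool.Agent.Results.MP_75f39d_co.DownSets
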