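import Pool.Agent.Helper65.PO.Main

set_option autoImplicit false

/-!
# Poonen's strict form for the intervals in the lattice of the preorders on a finite set

Let `X` be a finite set, `Q` a reflexive and transitive relation on `X` and `S` a transitive relation
with `Q ⊆ S`. We prove Poonen's strengthening of the union-closed sets conjecture for every separating
finite union-closed family whose inclusion order is dual to the lattice of the preorders `r` on `X`
with `Q ⊆ r ⊆ S`: unless the family is a power set, some element lies in strictly more than half of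
its members. (The same lattices, in other words: the intervals in the lattice of the topologies on a
finite set.)

Proof. Call `(x, y) ∈ S ∖ Q` and let `J = J(x, y)` be the preorder generated by `Q` and `(x, y)`.
(a) If a class of `S` is not a `Q`-antichain, there are `x, y` in it with `(y, x) ∈ Q` a cover and
`(x, y) ∉ Q`, and an up-set argument gives `N` not above `J` with `U = J ⊔ (U ⊓ N)` for all `U ≥ J`.
(b) If `S` is antisymmetric modulo `Q`, one takes `N = S ∖ {(x, y)}` (up to `Q`-equivalence) for a cover
`(x, y)` of `S` that is not in `Q`.
(c) If all the classes of `S` are `Q`-antichains and one of them has exactly two elements `x, y`, again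
such an `N` exists.
(d) If one of them has three elements, the number of the `U` with `(x, y), (y, x) ∈ U` is smaller than
the number of those with `(x, y), (y, x) ∉ U`, by an injection that isolates `x` and is not onto. So
`J(x, y)` or `J(y, x)` is below less than half of the members.
In the cases (a), (b), (c) one concludes by induction on `S ∖ Q`, since the interval above `J` is of the
same kind.
-/

namespace Pool.Agent.Results.MP_75f39d_co.PreorderIntervals

open Pool.Agent.R636.FL Pool.Agent.H8K1.CL Pool.Agent.Helper65.PO

universe u v w

/-- Poonen's strict form holds for the separating finite union-closed families whose inclusion order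
is dual to `L`. -/
def PoonenHolds (L : Type v) [PartialOrder L] : Prop :=
  ∀ (α : Type w) [DecidableEq α] (A : Finset (Finset α)),
    Nonempty ({X // X ∈ A} ≃o Lᵒᵈ) →
    (∀ X ∈ A, ∀ Y ∈ A, X ∪ Y ∈ A) →
    (∀ x ∈ A.sup id, ∀ y ∈ A.sup id, x ≠ y → ∃ S ∈ A, (x ∈ S ∧ y ∉ S) ∨ (y ∈ S ∧ x ∉ S)) →
    A ≠ (A.sup id).powerset →
    ∃ x ∈ A.sup id, A.card < 2 * (A.filter fun S => x ∈ S).card

theorem of_good {L : Type v} [Lattice L] [OrderBot L] [Finite L] (h : Good L) :
    PoonenHolds.{v, w} L := by
  rintro α _ A ⟨e⟩ hA hsep hpow
  exact poonen_of_good A hA e h ⟨_, (e.symm (OrderDual.toDual ⊥)).2⟩ hsep hpow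

/-- **Theorem.** Poonen's strict form for the intervals in the lattice of the preorders on a finite
set. -/
theorem result (X : Type u) [Finite X] (Q S : X → X → Prop)
    (hQ : ∀ x, Q x x) (hQt : ∀ x y z, Q x y → Q y z → Q x z)
    (hSt : ∀ x y z, S x y → S y z → S x z) (hQS : ∀ x y, Q x y → S x y) :
    PoonenHolds.{u, w} {r : X → X → Prop // (∀ x y z, r x y → r y z → r x z) ∧
      (∀ x y, Q x y → r x y) ∧ ∀ x y, r x y → S x y} :=
  of_good (L := (Itv.mk Q S hQ (fun h5 h6 => hQt _ _ _ h5 h6)
    (fun h5 h6 => hSt _ _ _ h5 h6) (fun h5 => hQS _ _ h5)).T) (good _)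

end Pool.Agent.Results.MP_75f39d_co.PreorderIntervals
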