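import Mathlib
import Pool.Agent.Helper51.SubL.Family

set_option autoImplicit false

/-!
# Poonen's strict inequality for the sublattices of a finite distributive lattice

Let `L` be a finite distributive lattice, `Z` a sublattice (possibly empty) and let `A` be the family
of the complements in `L` of the sublattices that contain `Z`. `A` is union-closed. We show: if `A`
separates the elements of its union and is not a power set, then some element of `L` lies in strictly
more than half of the members of `A`.

Proof. The half form chooses an element `x` outside `Z` and an injection of the sublattices containing
`Z` and `x` into those containing `Z` and not `x`. If the injection is onto, only one filter is added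
below the filter of `x`, and then the map `T ↦ T ⊔ {x}` is a bijection from the sublattices without
`x` onto those with `x`. Hence if no element is in strictly more than half of the members of `A`, the
same holds for the sublattice generated by `Z` and `x`, and by induction every element outside `Z` is in
exactly half of the members, and `A` is a power set if it is separating.
-/

namespace Pool.Agent.Results.MP_75f39d_co.SublatticeIntervals

universe u

theorem result {L : Type u} [DistribLattice L] [Fintype L] [DecidableEq L]
    (Z : Sublattice L) (A : Finset (Finset L))
    (hA : ∀ X : Finset L, X ∈ A ↔ ∃ S : Sublattice L, Z ≤ S ∧ ∀ x, x ∈ X ↔ x ∉ S) :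
    (∀ X ∈ A, ∀ Y ∈ A, X ∪ Y ∈ A) ∧
      ((∀ x ∈ A.sup id, ∀ y ∈ A.sup id, x ≠ y → ∃ X ∈ A, ¬ (x ∈ X ↔ y ∈ X)) →
        A ≠ (A.sup id).powerset →
        ∃ x : L, A.card < 2 * (A.filter fun X => x ∈ X).card) :=
  ⟨Pool.Agent.Helper51.SubL.IsFam.union hA, fun hsep hpow =>
    Pool.Agent.Helper51.SubL.strict Z A hA hsep hpow⟩

end Pool.Agent.Results.MP_75f39d_co.SublatticeIntervals
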